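import Pool.Agent.Helper20.IIC.Stmts

set_option linter.unusedSectionVars false

namespace IIC

open scoped BigOperators

section Graph

variable {V : Type} {E : Type} (ends : E → Sym2 V)

theorem expl_step_symm {T : Set E} {x y : V} (h : Step ends T x y) : Step ends T y x := by
  obtain ⟨e, he, hh⟩ := h
  exact ⟨e, he, by rw [hh, Sym2.eq_swap]⟩

theorem expl_conn_symm {T : Set E} {x y : V} (h : Conn ends T x y) : Conn ends T y x := by
  induction h with
  | refl => exact Relation.ReflTransGen.refl
  | tail _ hs ih => exact Relation.ReflTransGen.head (expl_step_symm ends hs) ih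

theorem expl_conn_mono {T T' : Set E} (hT : T ⊆ T') {x y : V} (h : Conn ends T x y) :
    Conn ends T' x y := by
  induction h with
  | refl => exact Relation.ReflTransGen.refl
  | tail _ hs ih =>
    obtain ⟨e, he, hh⟩ := hs
    exact Relation.ReflTransGen.tail ih ⟨e, hT he, hh⟩

variable [Fintype V] [DecidableEq V] [Fintype E] [DecidableEq E]

open Classical in
/-- The cluster of `v`. -/
noncomputable def explCl (v : V) (T : Finset E) : Finset V :=
  Finset.univ.filter fun w => Conn ends (T : Set E) v w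

open Classical in
/-- The edges inside `S`. -/
noncomputable def explEI (S : Finset V) : Finset E :=
  Finset.univ.filter fun e => ∀ w ∈ ends e, w ∈ S

open Classical in
/-- The edges inside the complement of `S`. -/
noncomputable def explEO (S : Finset V) : Finset E :=
  Finset.univ.filter fun e => ∀ w ∈ ends e, w ∉ S

theorem expl_mem_cl (v w : V) (T : Finset E) :
    w ∈ explCl ends v T ↔ Conn ends (T : Set E) v w := by
  unfold explCl
  simp

theorem expl_mem_EI (S : Finset V) (e : E) : e ∈ explEI ends S ↔ ∀ w ∈ ends e, w ∈ S := by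
  unfold explEI
  simp

theorem expl_mem_EO (S : Finset V) (e : E) : e ∈ explEO ends S ↔ ∀ w ∈ ends e, w ∉ S := by
  unfold explEO
  simp

theorem expl_disj (S : Finset V) : Disjoint (explEI ends S) (explEO ends S) := by
  rw [Finset.disjoint_left]
  intro e h1 h2
  rw [expl_mem_EI] at h1
  rw [expl_mem_EO] at h2
  obtain ⟨⟨a, b⟩, hab⟩ := Quot.exists_rep (ends e)
  have : a ∈ ends e := by
    rw [← hab]
    exact Sym2.mem_mk_left a b
  exact h2 a this (h1 a this)

theorem expl_cl_iff (v : V) (S : Finset V) (T : Finset E) :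
    explCl ends v T = S ↔
      T ⊆ explEI ends S ∪ explEO ends S ∧ explCl ends v (T ∩ explEI ends S) = S := by
  constructor
  · intro h
    have hS : ∀ w, w ∈ S ↔ Conn ends (T : Set E) v w := by
      intro w
      rw [← h, expl_mem_cl]
    have hedge : ∀ e ∈ T, ∀ a b, ends e = s(a, b) → a ∈ S → b ∈ S := by
      intro e he a b hab ha
      rw [hS] at ha ⊢
      exact Relation.ReflTransGen.tail ha ⟨e, he, hab⟩
    have hI : ∀ e ∈ T, ∀ a b, ends e = s(a, b) → a ∈ S → e ∈ explEI ends S := by
      intro e he a b hab ha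
      rw [expl_mem_EI]
      intro w hw
      rw [hab, Sym2.mem_iff] at hw
      rcases hw with rfl | rfl
      · exact ha
      · exact hedge e he a w hab ha
    refine ⟨?_, ?_⟩
    · intro e he
      rw [Finset.mem_union]
      by_cases hex : ∃ a b, ends e = s(a, b) ∧ a ∈ S
      · obtain ⟨a, b, hab, ha⟩ := hex
        exact Or.inl (hI e he a b hab ha)
      · right
        rw [expl_mem_EO]
        intro w hw hwS
        obtain ⟨b, hb⟩ := Sym2.mem_iff_exists.1 hw
        exact hex ⟨w, b, hb, hwS⟩
    · ext w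
      rw [expl_mem_cl, hS]
      constructor
      · intro hw
        refine expl_conn_mono ends ?_ hw
        intro e he
        rw [Finset.mem_coe, Finset.mem_inter] at he
        exact he.1
      · intro hw
        induction hw with
        | refl => exact Relation.ReflTransGen.refl
        | tail hb hstep ih =>
          rename_i b c
          obtain ⟨e, he, hbc⟩ := hstep
          refine Relation.ReflTransGen.tail ih ⟨e, ?_, hbc⟩
          rw [Finset.mem_coe, Finset.mem_inter]
          exact ⟨he, hI e he b c hbc ((hS b).2 hb)⟩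
  · rintro ⟨h1, h2⟩
    ext w
    rw [expl_mem_cl]
    constructor
    · intro hw
      have hv : v ∈ S := by
        rw [← h2, expl_mem_cl]
        exact Relation.ReflTransGen.refl
      induction hw with
      | refl => exact hv
      | tail hb hstep ih =>
        rename_i b c
        obtain ⟨e, he, hbc⟩ := hstep
        rcases Finset.mem_union.1 (h1 he) with h | h
        · rw [expl_mem_EI] at h
          exact h c (by rw [hbc]; exact Sym2.mem_mk_right b c)
        · rw [expl_mem_EO] at h
          exact absurd ih (h b (by rw [hbc]; exact Sym2.mem_mk_left b c))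
    · intro hw
      rw [← h2, expl_mem_cl] at hw
      refine expl_conn_mono ends ?_ hw
      intro e he
      rw [Finset.mem_coe, Finset.mem_inter] at he
      exact he.1

/-! ### sums -/

theorem expl_sum_split (S : Finset V) (h : Finset E → Finset E → ℝ) :
    ∑ T ∈ (explEI ends S ∪ explEO ends S).powerset, h (T ∩ explEI ends S) (T ∩ explEO ends S) =
      ∑ A ∈ (explEI ends S).powerset, ∑ B ∈ (explEO ends S).powerset, h A B := by
  rw [← Finset.sum_product']
  refine Finset.sum_nbij' (fun T => (T ∩ explEI ends S, T ∩ explEO ends S))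
    (fun p => p.1 ∪ p.2) ?_ ?_ ?_ ?_ ?_
  · intro T _
    simp only [Finset.mem_product, Finset.mem_powerset]
    exact ⟨Finset.inter_subset_right, Finset.inter_subset_right⟩
  · intro p hp
    simp only [Finset.mem_product, Finset.mem_powerset] at hp ⊢
    exact Finset.union_subset_union hp.1 hp.2
  · intro T hT
    rw [Finset.mem_powerset] at hT
    simp only
    rw [← Finset.inter_union_distrib_left]
    exact Finset.inter_eq_left.2 hT
  · intro p hp
    simp only [Finset.mem_product, Finset.mem_powerset] at hp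
    have hd := expl_disj ends S
    ext e
    · simp only [Finset.mem_inter, Finset.mem_union]
      constructor
      · rintro ⟨h1 | h1, h2⟩
        · exact h1
        · exact absurd (hp.2 h1) (Finset.disjoint_left.1 hd h2)
      · intro h1
        exact ⟨Or.inl h1, hp.1 h1⟩
    · simp only [Finset.mem_inter, Finset.mem_union]
      constructor
      · rintro ⟨h1 | h1, h2⟩
        · exact absurd h2 (Finset.disjoint_left.1 hd (hp.1 h1))
        · exact h1
      · intro h1
        exact ⟨Or.inr h1, hp.2 h1⟩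
  · intro T _
    rfl

end Graph

section Spins

variable {V : Type} [Fintype V] [DecidableEq V]

/-- Exchange of two configurations off `S`. -/
def explSw (S : Finset V) (p : (V → ℤˣ) × (V → ℤˣ)) : (V → ℤˣ) × (V → ℤˣ) :=
  (fun w => if w ∈ S then p.1 w else p.2 w, fun w => if w ∈ S then p.2 w else p.1 w)

theorem expl_sw_invol (S : Finset V) : Function.Involutive (explSw S) := by
  intro p
  unfold explSw
  ext w <;> by_cases h : w ∈ S <;> simp [h]

theorem expl_indep (S : Finset V) (G H : (V → ℤˣ) → ℝ)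
    (hG : ∀ σ σ' : V → ℤˣ, (∀ w ∈ S, σ w = σ' w) → G σ = G σ')
    (hH : ∀ σ σ' : V → ℤˣ, (∀ w ∉ S, σ w = σ' w) → H σ = H σ') :
    (∑ σ, G σ * H σ) * (Fintype.card (V → ℤˣ) : ℝ) = (∑ σ, G σ) * ∑ σ, H σ := by
  have h1 : (∑ σ, G σ) * ∑ σ, H σ = ∑ p : (V → ℤˣ) × (V → ℤˣ), G p.1 * H p.2 := by
    rw [Fintype.sum_prod_type, Finset.sum_mul_sum]
  have h2 : (∑ σ, G σ * H σ) * (Fintype.card (V → ℤˣ) : ℝ) =
      ∑ p : (V → ℤˣ) × (V → ℤˣ), G p.1 * H p.1 := by
    rw [Fintype.sum_prod_type, Finset.sum_mul]
    refine Finset.sum_congr rfl fun σ _ => ?_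
    simp only [Finset.sum_const, Finset.card_univ, nsmul_eq_mul]
    ring
  rw [h1, h2]
  rw [← Equiv.sum_comp (Function.Involutive.toPerm (explSw S) (expl_sw_invol S))
    (fun p : (V → ℤˣ) × (V → ℤˣ) => G p.1 * H p.1)]
  refine Finset.sum_congr rfl fun p _ => ?_
  have e1 : G ((Function.Involutive.toPerm (explSw S) (expl_sw_invol S)) p).1 = G p.1 := by
    apply hG
    intro w hw
    simp [explSw, hw]
  have e2 : H ((Function.Involutive.toPerm (explSw S) (expl_sw_invol S)) p).1 = H p.2 := by
    apply hH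
    intro w hw
    simp [explSw, hw]
  rw [e1, e2]

end Spins

section Main

variable {V : Type} {E : Type} [Fintype V] [DecidableEq V] [Fintype E] [DecidableEq E]
variable (ends : E → Sym2 V)

/-- `f` depends only on the spins off `S`. -/
def ExplOff (S : Finset V) (f : (V → ℤˣ) → ℝ) : Prop :=
  ∀ σ σ' : V → ℤˣ, (∀ w ∉ S, σ w = σ' w) → f σ = f σ'

theorem expl_bond_congr (σ σ' : V → ℤˣ) (e : E) (h : ∀ w ∈ ends e, σ w = σ' w) :
    bond ends σ e = bond ends σ' e := by
  unfold bond
  have : Sym2.map σ (ends e) = Sym2.map σ' (ends e) := Sym2.map_congr h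
  rw [this]

theorem expl_tw_mul (β : ℝ) (S : Finset V) (A B : Finset E) (hA : A ⊆ explEI ends S)
    (hB : B ⊆ explEO ends S) (f : (V → ℤˣ) → ℝ) (hf : ExplOff S f) :
    tw ends β (A ∪ B) f * (Fintype.card (V → ℤˣ) : ℝ) =
      tw ends β A (fun _ => 1) * tw ends β B f := by
  have hd : Disjoint A B := Disjoint.mono hA hB (expl_disj ends S)
  have h := expl_indep S (fun σ => ∏ e ∈ A, (Real.exp (β * bond ends σ e) - 1))
    (fun σ => f σ * ∏ e ∈ B, (Real.exp (β * bond ends σ e) - 1)) ?_ ?_
  · unfold tw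
    have e1 : ∀ σ : V → ℤˣ, f σ * ∏ e ∈ A ∪ B, (Real.exp (β * bond ends σ e) - 1) =
        (∏ e ∈ A, (Real.exp (β * bond ends σ e) - 1)) *
          (f σ * ∏ e ∈ B, (Real.exp (β * bond ends σ e) - 1)) := by
      intro σ
      rw [Finset.prod_union hd]
      ring
    simp only [e1, one_mul]
    exact h
  · intro σ σ' hs
    refine Finset.prod_congr rfl fun e he => ?_
    have h1 := hA he
    rw [expl_mem_EI] at h1
    rw [expl_bond_congr ends σ σ' e fun w hw => hs w (h1 w hw)]
  · intro σ σ' hs
    have h0 := hf σ σ' hs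
    have h2 : ∏ e ∈ B, (Real.exp (β * bond ends σ e) - 1) =
        ∏ e ∈ B, (Real.exp (β * bond ends σ' e) - 1) := by
      refine Finset.prod_congr rfl fun e he => ?_
      have h1 := hB he
      rw [expl_mem_EO] at h1
      rw [expl_bond_congr ends σ σ' e fun w hw => hs w (h1 w hw)]
    show f σ * ∏ e ∈ B, (Real.exp (β * bond ends σ e) - 1) = f σ' * _
    rw [h0, h2]

/-- The part of the sum where the cluster of `v` is `S`. -/
noncomputable def explN (β : ℝ) (v : V) (S : Finset V) (f g : (V → ℤˣ) → ℝ) : ℝ :=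
  PP ends β f g (fun T₁ T₂ => if explCl ends v (T₁ ∪ T₂) = S then 1 else 0)

/-- The inner factor. -/
noncomputable def explK (β : ℝ) (v : V) (S : Finset V) : ℝ :=
  ∑ A ∈ (explEI ends S).powerset, ∑ B ∈ (explEI ends S).powerset,
    tw ends β A (fun _ => 1) * tw ends β B (fun _ => 1) *
      (if explCl ends v (A ∪ B) = S then 1 else 0)

theorem expl_sum_EO (hTWS : ST_TWS) (β : ℝ) (S : Finset V) (f : (V → ℤˣ) → ℝ) :
    ∑ B ∈ (explEO ends S).powerset, tw ends β B f =
      Zs ends β (Finset.univ \ explEO ends S) f := by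
  classical
  rw [← hTWS V E ends β (Finset.univ \ explEO ends S) f, ← Finset.sum_filter_add_sum_filter_not
    Finset.univ (fun T => T ∈ (explEO ends S).powerset)]
  have h1 : ∑ T ∈ Finset.univ.filter (fun T => T ∈ (explEO ends S).powerset),
      (ef (Finset.univ \ explEO ends S)).indicator (fun T => tw ends β T f) T =
      ∑ B ∈ (explEO ends S).powerset, tw ends β B f := by
    rw [Finset.filter_mem_eq_inter, Finset.univ_inter]
    refine Finset.sum_congr rfl fun T hT => ?_
    rw [Set.indicator_of_mem]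
    rw [Finset.mem_powerset] at hT
    show Disjoint T _
    rw [Finset.disjoint_left]
    intro e he
    simp [hT he]
  have h2 : ∑ T ∈ Finset.univ.filter (fun T => ¬ T ∈ (explEO ends S).powerset),
      (ef (Finset.univ \ explEO ends S)).indicator (fun T => tw ends β T f) T = 0 := by
    refine Finset.sum_eq_zero fun T hT => ?_
    rw [Finset.mem_filter] at hT
    rw [Set.indicator_of_notMem]
    intro h
    apply hT.2
    rw [Finset.mem_powerset]
    intro e he
    by_contra hcon
    have h' : Disjoint T (Finset.univ \ explEO ends S) := h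
    exact Finset.disjoint_left.1 h' he (by simp [hcon])
  rw [h1, h2, add_zero]

theorem expl_N_eq (hTWS : ST_TWS) (β : ℝ) (v : V) (S : Finset V) (f g : (V → ℤˣ) → ℝ)
    (hf : ExplOff S f) (hg : ExplOff S g) :
    explN ends β v S f g * ((Fintype.card (V → ℤˣ) : ℝ) * (Fintype.card (V → ℤˣ) : ℝ)) =
      explK ends β v S * Zs ends β (Finset.univ \ explEO ends S) f *
        Zs ends β (Finset.univ \ explEO ends S) g := by
  classical
  set c₀ : ℝ := (Fintype.card (V → ℤˣ) : ℝ) with hc₀
  set EI := explEI ends S with hEI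
  set EO := explEO ends S with hEO
  have key : ∀ T₁ T₂ : Finset E,
      tw ends β T₁ f * tw ends β T₂ g * (if explCl ends v (T₁ ∪ T₂) = S then (1 : ℝ) else 0) *
        (c₀ * c₀) =
      if T₁ ∈ (EI ∪ EO).powerset then (if T₂ ∈ (EI ∪ EO).powerset then
        (tw ends β (T₁ ∩ EI) (fun _ => 1) * tw ends β (T₁ ∩ EO) f) *
        (tw ends β (T₂ ∩ EI) (fun _ => 1) * tw ends β (T₂ ∩ EO) g) *
        (if explCl ends v (T₁ ∩ EI ∪ T₂ ∩ EI) = S then (1 : ℝ) else 0) else 0) else 0 := by
    intro T₁ T₂
    have hiff := expl_cl_iff ends v S (T₁ ∪ T₂)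
    rw [Finset.union_inter_distrib_right] at hiff
    by_cases h1 : T₁ ⊆ EI ∪ EO
    · by_cases h2 : T₂ ⊆ EI ∪ EO
      · rw [if_pos (Finset.mem_powerset.2 h1), if_pos (Finset.mem_powerset.2 h2)]
        have e1 : tw ends β (T₁ ∩ EI) (fun _ => 1) * tw ends β (T₁ ∩ EO) f =
            tw ends β T₁ f * c₀ := by
          rw [← expl_tw_mul ends β S (T₁ ∩ EI) (T₁ ∩ EO) Finset.inter_subset_right
            Finset.inter_subset_right f hf, ← Finset.inter_union_distrib_left,
            Finset.inter_eq_left.2 h1]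
        have e2 : tw ends β (T₂ ∩ EI) (fun _ => 1) * tw ends β (T₂ ∩ EO) g =
            tw ends β T₂ g * c₀ := by
          rw [← expl_tw_mul ends β S (T₂ ∩ EI) (T₂ ∩ EO) Finset.inter_subset_right
            Finset.inter_subset_right g hg, ← Finset.inter_union_distrib_left,
            Finset.inter_eq_left.2 h2]
        have e3 : (explCl ends v (T₁ ∪ T₂) = S) ↔ explCl ends v (T₁ ∩ EI ∪ T₂ ∩ EI) = S := by
          rw [hiff]
          exact ⟨fun h => h.2, fun h => ⟨Finset.union_subset h1 h2, h⟩⟩
        rw [e1, e2]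
        simp only [e3]
        ring
      · rw [if_pos (Finset.mem_powerset.2 h1), if_neg (fun h => h2 (Finset.mem_powerset.1 h)),
          if_neg]
        · ring
        · intro h
          exact h2 ((Finset.subset_union_right).trans (hiff.1 h).1)
    · rw [if_neg (fun h => h1 (Finset.mem_powerset.1 h)), if_neg]
      · ring
      · intro h
        exact h1 ((Finset.subset_union_left).trans (hiff.1 h).1)
  unfold explN PP
  rw [Finset.sum_mul]
  simp only [Finset.sum_mul, key]
  rw [Finset.sum_comm, Finset.sum_comm]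
  have s1 : ∀ T₁ : Finset E, (∑ T₂ : Finset E,
      if T₁ ∈ (EI ∪ EO).powerset then (if T₂ ∈ (EI ∪ EO).powerset then
        (tw ends β (T₁ ∩ EI) (fun _ => 1) * tw ends β (T₁ ∩ EO) f) *
        (tw ends β (T₂ ∩ EI) (fun _ => 1) * tw ends β (T₂ ∩ EO) g) *
        (if explCl ends v (T₁ ∩ EI ∪ T₂ ∩ EI) = S then (1 : ℝ) else 0) else 0) else 0) =
      if T₁ ∈ (EI ∪ EO).powerset then
        (∑ A₂ ∈ EI.powerset, ∑ B₂ ∈ EO.powerset,
          (tw ends β (T₁ ∩ EI) (fun _ => 1) * tw ends β (T₁ ∩ EO) f) *
          (tw ends β A₂ (fun _ => 1) * tw ends β B₂ g) *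
          (if explCl ends v (T₁ ∩ EI ∪ A₂) = S then (1 : ℝ) else 0)) else 0 := by
    intro T₁
    by_cases h : T₁ ∈ (EI ∪ EO).powerset
    · simp only [if_pos h]
      rw [← expl_sum_split ends S (fun A₂ B₂ =>
        (tw ends β (T₁ ∩ EI) (fun _ => 1) * tw ends β (T₁ ∩ EO) f) *
          (tw ends β A₂ (fun _ => 1) * tw ends β B₂ g) *
          (if explCl ends v (T₁ ∩ EI ∪ A₂) = S then (1 : ℝ) else 0)), Finset.sum_ite_mem,
        Finset.univ_inter]
    · simp only [if_neg h, Finset.sum_const_zero]
  simp only [s1]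
  rw [Finset.sum_ite_mem, Finset.univ_inter]
  rw [expl_sum_split ends S (fun A₁ B₁ => ∑ A₂ ∈ EI.powerset, ∑ B₂ ∈ EO.powerset,
          (tw ends β A₁ (fun _ => 1) * tw ends β B₁ f) *
          (tw ends β A₂ (fun _ => 1) * tw ends β B₂ g) *
          (if explCl ends v (A₁ ∪ A₂) = S then (1 : ℝ) else 0))]
  rw [← expl_sum_EO ends hTWS β S f, ← expl_sum_EO ends hTWS β S g, ← hEO]
  unfold explK
  rw [← hEI, Finset.sum_mul, Finset.sum_mul]
  refine Finset.sum_congr rfl fun A₁ _ => ?_
  rw [Finset.sum_comm, Finset.sum_mul, Finset.sum_mul]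
  refine Finset.sum_congr rfl fun A₂ _ => ?_
  rw [mul_assoc, Finset.sum_mul_sum, Finset.mul_sum]
  refine Finset.sum_congr rfl fun B₁ _ => ?_
  rw [Finset.mul_sum]
  refine Finset.sum_congr rfl fun B₂ _ => ?_
  ring

/-! ### positivity and the Griffiths inequality -/

theorem expl_two_self (x : V) : two x x = fun _ : V → ℤˣ => (1 : ℝ) := by
  funext σ
  unfold two
  simp

theorem expl_Zs_pos (β : ℝ) (F : Finset E) : 0 < Zs ends β F (fun _ => 1) := by
  unfold Zs
  refine Finset.sum_pos (fun σ _ => ?_) Finset.univ_nonempty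
  rw [one_mul]
  exact Finset.prod_pos fun e _ => Real.exp_pos _

theorem expl_Zs_nonneg (hTWN : ST_TWN) (hTWS : ST_TWS) (β : ℝ) (hβ : 0 ≤ β) (F : Finset E)
    (x y : V) : 0 ≤ Zs ends β F (two x y) := by
  rw [← hTWS V E ends β F (two x y)]
  refine Finset.sum_nonneg fun T _ => ?_
  exact Set.indicator_nonneg (fun T _ => hTWN V E ends β T x y hβ) T

theorem expl_griffiths (hFKS : ST_FKS) (hFKGA : ST_FKGA) (β : ℝ) (hβ : 0 ≤ β) (F : Finset E)
    (x y : V) : Zs ends β F (two x y) * Zs ends β ∅ (fun _ => 1) ≤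
      Zs ends β ∅ (two x y) * Zs ends β F (fun _ => 1) := by
  classical
  have hcx : ∀ z : V, cn ends z z = Set.univ := by
    intro z
    ext T
    simp only [Set.mem_univ, iff_true]
    exact Relation.ReflTransGen.refl
  have he : ef (∅ : Finset E) = Set.univ := by
    ext T
    simp [ef]
  have h1 := hFKS V E ends β F x y hβ
  have h2 := hFKS V E ends β F x x hβ
  have h3 := hFKS V E ends β ∅ x y hβ
  have h4 := hFKS V E ends β ∅ x x hβ
  rw [hcx, Set.inter_univ, expl_two_self] at h2
  rw [he, Set.univ_inter] at h3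
  rw [he, hcx, Set.inter_univ, expl_two_self] at h4
  rw [Set.indicator_univ] at h4
  set Z := ∑ T : Finset E, fkw ends β T with hZ
  have hZpos : 0 < Z := by
    rw [h4]
    exact mul_pos (Real.exp_pos _) (expl_Zs_pos ends β ∅)
  have hup1 : IsUpperSet (cn ends x y) := by
    intro T T' hT h
    exact expl_conn_mono ends (Finset.coe_subset.2 hT) h
  have hup2 : IsUpperSet ((ef F)ᶜ : Set (Finset E)) := by
    intro T T' hT h h'
    exact h (Disjoint.mono_left hT h')
  have hfkg := hFKGA V E ends β hβ (cn ends x y) ((ef F)ᶜ) hup1 hup2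
  unfold fkP at hfkg
  rw [← hZ] at hfkg
  have s1 : ∑ T : Finset E, ((ef F)ᶜ : Set (Finset E)).indicator (fkw ends β) T =
      Z - ∑ T : Finset E, (ef F).indicator (fkw ends β) T := by
    rw [hZ, ← Finset.sum_sub_distrib]
    refine Finset.sum_congr rfl fun T _ => ?_
    rw [Set.indicator_compl]
    rfl
  have s2 : ∑ T : Finset E, (cn ends x y ∩ (ef F)ᶜ).indicator (fkw ends β) T =
      ∑ T : Finset E, (cn ends x y).indicator (fkw ends β) T -
        ∑ T : Finset E, (ef F ∩ cn ends x y).indicator (fkw ends β) T := by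
    rw [← Finset.sum_sub_distrib]
    refine Finset.sum_congr rfl fun T _ => ?_
    by_cases hc : T ∈ cn ends x y <;> by_cases hf : T ∈ ef F <;> simp [hc, hf]
  rw [s1, s2, h1, h2, h3] at hfkg
  rw [div_mul_div_comm, div_le_div_iff₀ (mul_pos hZpos hZpos) hZpos] at hfkg
  set a := Zs ends β F (two x y)
  set b := Zs ends β F (fun _ => 1)
  set c := Zs ends β ∅ (two x y)
  set d := Zs ends β ∅ (fun _ => 1)
  set p := Real.exp (β * ((Finset.univ \ F).card : ℝ)) with hp
  set q := Real.exp (β * ((Finset.univ \ (∅ : Finset E)).card : ℝ)) with hq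
  have hppos : 0 < p := Real.exp_pos _
  have hqpos : 0 < q := Real.exp_pos _
  rw [h4] at hfkg hZpos
  have h5 : (q * c * (q * d - p * b)) ≤ (q * c - p * a) * (q * d) := by
    refine le_of_mul_le_mul_right ?_ hZpos
    refine le_of_mul_le_mul_right ?_ hZpos
    nlinarith [hfkg]
  have h6 : q * p * (a * d) ≤ q * p * (c * b) := by nlinarith
  exact le_of_mul_le_mul_left h6 (mul_pos hqpos hppos)

theorem expl_K_nonneg (hTWN : ST_TWN) (β : ℝ) (hβ : 0 ≤ β) (v : V) (S : Finset V) :
    0 ≤ explK ends β v S := by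
  unfold explK
  refine Finset.sum_nonneg fun A _ => Finset.sum_nonneg fun B _ => ?_
  have h1 := hTWN V E ends β A v v hβ
  have h2 := hTWN V E ends β B v v hβ
  rw [expl_two_self] at h1 h2
  refine mul_nonneg (mul_nonneg h1 h2) ?_
  split_ifs <;> norm_num

theorem expl_N_nonneg (hTWN : ST_TWN) (β : ℝ) (hβ : 0 ≤ β) (v : V) (S : Finset V) :
    0 ≤ explN ends β v S (fun _ => 1) (fun _ => 1) := by
  unfold explN PP
  refine Finset.sum_nonneg fun A _ => Finset.sum_nonneg fun B _ => ?_
  have h1 := hTWN V E ends β A v v hβ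
  have h2 := hTWN V E ends β B v v hβ
  rw [expl_two_self] at h1 h2
  refine mul_nonneg (mul_nonneg h1 h2) ?_
  show 0 ≤ (if explCl ends v (A ∪ B) = S then (1 : ℝ) else 0)
  split_ifs <;> norm_num

theorem expl_PP_one (hTWS : ST_TWS) (β : ℝ) (f g : (V → ℤˣ) → ℝ) :
    PP ends β f g (fun _ _ => 1) = Zs ends β ∅ f * Zs ends β ∅ g := by
  have he : ef (∅ : Finset E) = Set.univ := by
    ext T
    simp [ef]
  rw [← hTWS V E ends β ∅ f, ← hTWS V E ends β ∅ g, he, Finset.sum_mul_sum]
  unfold PP
  simp

/-- splitting according to the cluster of `v` -/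
theorem expl_PP_split (β : ℝ) (f g : (V → ℤˣ) → ℝ) (u v : V) :
    PP ends β f g (fun _ _ => 1) = PP ends β f g (kap ends u v) +
      ∑ S ∈ Finset.univ.filter (fun S : Finset V => u ∉ S), explN ends β v S f g := by
  classical
  unfold explN PP
  rw [Finset.sum_comm' (s := Finset.univ.filter (fun S : Finset V => u ∉ S))
    (t := fun _ => (Finset.univ : Finset (Finset E))) (t' := Finset.univ)
    (s' := fun _ => Finset.univ.filter (fun S : Finset V => u ∉ S)) (by simp)]
  rw [← Finset.sum_add_distrib]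
  refine Finset.sum_congr rfl fun T₁ _ => ?_
  rw [Finset.sum_comm, ← Finset.sum_add_distrib]
  refine Finset.sum_congr rfl fun T₂ _ => ?_
  rw [← Finset.mul_sum, ← mul_add]
  congr 1
  rw [Finset.sum_ite_eq]
  unfold kap
  by_cases h : Conn ends ((T₁ ∪ T₂ : Finset E) : Set E) u v
  · have h1 : T₁ ∪ T₂ ∈ cn ends u v := h
    rw [Set.indicator_of_mem h1, if_neg, add_zero]
    rw [Finset.mem_filter]
    intro h2
    exact h2.2 ((expl_mem_cl ends v u _).2 (expl_conn_symm ends h))
  · have h1 : T₁ ∪ T₂ ∉ cn ends u v := h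
    rw [Set.indicator_of_notMem h1, if_pos, zero_add]
    rw [Finset.mem_filter]
    refine ⟨Finset.mem_univ _, fun h2 => h ?_⟩
    exact expl_conn_symm ends ((expl_mem_cl ends v u _).1 h2)

theorem expl_N_left (hSRC : ST_SRC) (β : ℝ) (o u v : V) (S : Finset V) (hu : u ∉ S) (ho : o ∈ S)
    (g : (V → ℤˣ) → ℝ) : explN ends β v S (two o u) g = 0 := by
  unfold explN PP
  refine Finset.sum_eq_zero fun T₁ _ => Finset.sum_eq_zero fun T₂ _ => ?_
  by_cases h0 : tw ends β T₁ (two o u) = 0
  · rw [h0]
    ring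
  · show _ * (if explCl ends v (T₁ ∪ T₂) = S then (1 : ℝ) else 0) = 0
    rw [if_neg, mul_zero]
    intro hS
    have h1 := hSRC V E ends β T₁ o u h0
    have h2 : Conn ends ((T₁ ∪ T₂ : Finset E) : Set E) o u :=
      expl_conn_mono ends (Finset.coe_subset.2 Finset.subset_union_left) h1
    rw [← hS, expl_mem_cl] at ho hu
    exact hu (Relation.ReflTransGen.trans ho h2)

theorem expl_N_right (hSRC : ST_SRC) (β : ℝ) (u y v : V) (S : Finset V) (hu : u ∉ S) (hy : y ∈ S)
    (f : (V → ℤˣ) → ℝ) : explN ends β v S f (two u y) = 0 := by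
  unfold explN PP
  refine Finset.sum_eq_zero fun T₁ _ => Finset.sum_eq_zero fun T₂ _ => ?_
  by_cases h0 : tw ends β T₂ (two u y) = 0
  · rw [h0]
    ring
  · show _ * (if explCl ends v (T₁ ∪ T₂) = S then (1 : ℝ) else 0) = 0
    rw [if_neg, mul_zero]
    intro hS
    have h1 := hSRC V E ends β T₂ u y h0
    have h2 : Conn ends ((T₁ ∪ T₂ : Finset E) : Set E) u y :=
      expl_conn_mono ends (Finset.coe_subset.2 Finset.subset_union_right) h1
    rw [← hS, expl_mem_cl] at hy hu
    exact hu (Relation.ReflTransGen.trans hy (expl_conn_symm ends h2))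

theorem expl_off_two (S : Finset V) (x y : V) (hx : x ∉ S) (hy : y ∉ S) :
    ExplOff S (two x y) := by
  intro σ σ' h
  unfold two
  rw [h x hx, h y hy]

theorem expl_off_one (S : Finset V) : ExplOff S (fun _ => (1 : ℝ)) := fun _ _ _ => rfl

end Main

theorem st_EXPL (hTWN : ST_TWN) (hTWS : ST_TWS) (hSRC : ST_SRC) (hFKS : ST_FKS)
    (hFKGA : ST_FKGA) : ST_EXPL := by
  intro V _ _ E _ _ ends β o u y v hβ
  classical
  set Z := Zs ends β ∅ (fun _ => 1) with hZ
  set Zf := Zs ends β ∅ (two o u) with hZf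
  set Zg := Zs ends β ∅ (two u y) with hZg
  have hZpos : 0 < Z := expl_Zs_pos ends β ∅
  have hZf0 : 0 ≤ Zf := expl_Zs_nonneg ends hTWN hTWS β hβ ∅ o u
  have hZg0 : 0 ≤ Zg := expl_Zs_nonneg ends hTWN hTWS β hβ ∅ u y
  set c₀ : ℝ := (Fintype.card (V → ℤˣ) : ℝ) with hc₀
  have hc₀pos : 0 < c₀ := by
    rw [hc₀]
    exact_mod_cast Fintype.card_pos
  have hcc : 0 < c₀ * c₀ := mul_pos hc₀pos hc₀pos
  -- the termwise inequality
  have hterm : ∀ S : Finset V, u ∉ S →
      (explN ends β v S (two o u) (fun _ => 1) * Zg + explN ends β v S (fun _ => 1) (two u y) * Zf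
        - explN ends β v S (two o u) (two u y) * Z) * Z ≤
      explN ends β v S (fun _ => 1) (fun _ => 1) * (Zf * Zg) := by
    intro S hu
    have hK := expl_K_nonneg ends hTWN β hβ v S
    set K := explK ends β v S
    set F := Finset.univ \ explEO ends S with hF
    have hF1 : 0 < Zs ends β F (fun _ => 1) := expl_Zs_pos ends β F
    have hG1 := expl_griffiths ends hFKS hFKGA β hβ F o u
    have hG2 := expl_griffiths ends hFKS hFKGA β hβ F u y
    rw [← hZ, ← hZf] at hG1
    rw [← hZ, ← hZg] at hG2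
    have h11 := expl_N_eq ends hTWS β v S _ _ (expl_off_one S) (expl_off_one S)
    have hN0 := expl_N_nonneg ends hTWN β hβ v S
    rw [← hF, ← hc₀] at h11
    by_cases ho : o ∈ S
    · rw [expl_N_left ends hSRC β o u v S hu ho, expl_N_left ends hSRC β o u v S hu ho]
      by_cases hy : y ∈ S
      · rw [expl_N_right ends hSRC β u y v S hu hy]
        have : 0 ≤ explN ends β v S (fun _ => 1) (fun _ => 1) * (Zf * Zg) :=
          mul_nonneg hN0 (mul_nonneg hZf0 hZg0)
        linarith
      · have h1g := expl_N_eq ends hTWS β v S _ _ (expl_off_one S) (expl_off_two S u y hu hy)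
        rw [← hF, ← hc₀] at h1g
        refine le_of_mul_le_mul_right ?_ hcc
        have e1 : (0 * Zg + explN ends β v S (fun _ => 1) (two u y) * Zf - 0 * Z) * Z *
            (c₀ * c₀) = (explN ends β v S (fun _ => 1) (two u y) * (c₀ * c₀)) * Zf * Z := by ring
        have e2 : explN ends β v S (fun _ => 1) (fun _ => 1) * (Zf * Zg) * (c₀ * c₀) =
            (explN ends β v S (fun _ => 1) (fun _ => 1) * (c₀ * c₀)) * Zf * Zg := by ring
        rw [e1, e2, h1g, h11]
        have h := mul_le_mul_of_nonneg_left hG2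
          (mul_nonneg (mul_nonneg hK hF1.le) hZf0)
        linarith
    · by_cases hy : y ∈ S
      · rw [expl_N_right ends hSRC β u y v S hu hy, expl_N_right ends hSRC β u y v S hu hy]
        have hf1 := expl_N_eq ends hTWS β v S _ _ (expl_off_two S o u ho hu) (expl_off_one S)
        rw [← hF, ← hc₀] at hf1
        refine le_of_mul_le_mul_right ?_ hcc
        have e1 : (explN ends β v S (two o u) (fun _ => 1) * Zg + 0 * Zf - 0 * Z) * Z *
            (c₀ * c₀) = (explN ends β v S (two o u) (fun _ => 1) * (c₀ * c₀)) * Zg * Z := by ring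
        have e2 : explN ends β v S (fun _ => 1) (fun _ => 1) * (Zf * Zg) * (c₀ * c₀) =
            (explN ends β v S (fun _ => 1) (fun _ => 1) * (c₀ * c₀)) * Zf * Zg := by ring
        rw [e1, e2, hf1, h11]
        have h := mul_le_mul_of_nonneg_left hG1
          (mul_nonneg (mul_nonneg hK hF1.le) hZg0)
        linarith
      · have h1g := expl_N_eq ends hTWS β v S _ _ (expl_off_one S) (expl_off_two S u y hu hy)
        have hf1 := expl_N_eq ends hTWS β v S _ _ (expl_off_two S o u ho hu) (expl_off_one S)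
        have hfg := expl_N_eq ends hTWS β v S _ _ (expl_off_two S o u ho hu)
          (expl_off_two S u y hu hy)
        rw [← hF, ← hc₀] at h1g hf1 hfg
        refine le_of_mul_le_mul_right ?_ hcc
        have e1 : (explN ends β v S (two o u) (fun _ => 1) * Zg +
              explN ends β v S (fun _ => 1) (two u y) * Zf -
              explN ends β v S (two o u) (two u y) * Z) * Z * (c₀ * c₀) =
            ((explN ends β v S (two o u) (fun _ => 1) * (c₀ * c₀)) * Zg +
              (explN ends β v S (fun _ => 1) (two u y) * (c₀ * c₀)) * Zf -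
              (explN ends β v S (two o u) (two u y) * (c₀ * c₀)) * Z) * Z := by ring
        have e2 : explN ends β v S (fun _ => 1) (fun _ => 1) * (Zf * Zg) * (c₀ * c₀) =
            (explN ends β v S (fun _ => 1) (fun _ => 1) * (c₀ * c₀)) * Zf * Zg := by ring
        rw [e1, e2, hf1, h1g, hfg, h11]
        have h := mul_nonneg hK (mul_nonneg (sub_nonneg.2 hG1) (sub_nonneg.2 hG2))
        linarith
  -- summation
  have t11 := expl_PP_split ends β (fun _ => 1) (fun _ => 1) u v
  have tf1 := expl_PP_split ends β (two o u) (fun _ => 1) u v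
  have t1g := expl_PP_split ends β (fun _ => 1) (two u y) u v
  have tfg := expl_PP_split ends β (two o u) (two u y) u v
  rw [expl_PP_one ends hTWS] at t11 tf1 t1g tfg
  rw [← hZ] at t11 tf1 t1g
  rw [← hZf] at tf1 tfg
  rw [← hZg] at t1g tfg
  have hsum := Finset.sum_le_sum (s := Finset.univ.filter (fun S : Finset V => u ∉ S))
    (fun S hS => hterm S (Finset.mem_filter.1 hS).2)
  rw [← Finset.sum_mul, ← Finset.sum_mul, Finset.sum_sub_distrib, Finset.sum_add_distrib,
    ← Finset.sum_mul, ← Finset.sum_mul, ← Finset.sum_mul] at hsum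
  have hkap : 0 ≤ PP ends β (fun _ => 1) (fun _ => 1) (kap ends u v) := by
    unfold PP
    refine Finset.sum_nonneg fun A _ => Finset.sum_nonneg fun B _ => ?_
    have h1 := hTWN V E ends β A v v hβ
    have h2 := hTWN V E ends β B v v hβ
    rw [expl_two_self] at h1 h2
    refine mul_nonneg (mul_nonneg h1 h2) ?_
    unfold kap
    exact Set.indicator_nonneg (fun _ _ => zero_le_one) _
  set N11 := ∑ S ∈ Finset.univ.filter (fun S : Finset V => u ∉ S),
    explN ends β v S (fun _ => 1) (fun _ => 1)
  set Nf1 := ∑ S ∈ Finset.univ.filter (fun S : Finset V => u ∉ S),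
    explN ends β v S (two o u) (fun _ => 1)
  set N1g := ∑ S ∈ Finset.univ.filter (fun S : Finset V => u ∉ S),
    explN ends β v S (fun _ => 1) (two u y)
  set Nfg := ∑ S ∈ Finset.univ.filter (fun S : Finset V => u ∉ S),
    explN ends β v S (two o u) (two u y)
  have h1 : N11 * (Zf * Zg) ≤ Z * Z * (Zf * Zg) :=
    mul_le_mul_of_nonneg_right (by linarith) (mul_nonneg hZf0 hZg0)
  have h2 : (Nf1 * Zg + N1g * Zf - Nfg * Z) * Z ≤ (Z * (Zf * Zg)) * Z := by linarith
  have h3 := le_of_mul_le_mul_right h2 hZpos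
  have ef1 : PP ends β (two o u) (fun _ => 1) (kap ends u v) = Zf * Z - Nf1 := by linarith
  have e1g : PP ends β (fun _ => 1) (two u y) (kap ends u v) = Z * Zg - N1g := by linarith
  have efg : PP ends β (two o u) (two u y) (kap ends u v) = Zf * Zg - Nfg := by linarith
  rw [ef1, e1g, efg]
  linarith

end IIC
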